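import Pool.Agent.H73.CBE.Stmts

set_option autoImplicit false

namespace Pool.CBE

theorem iTR : ITRStmt := by
  intro n f d η C θ a H k
  have hne : ∀ w : E n, w ≠ 0 → f w ≠ 0 := by
    intro w hw h0
    have h1 := H.lo w
    rw [h0, norm_zero] at h1
    have h2 : 0 < η * ‖w‖ ^ d := mul_pos H.hη (pow_pos (norm_pos_iff.mpr hw) d)
    linarith
  induction k with
  | zero =>
    refine ⟨?_, ?_, ?_, ?_⟩
    · simpa using contDiff_id
    · intro z hz; simpa using hz
    · intro c z; simp
    · intro z v hz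
      simp
  | succ k ih =>
    obtain ⟨h1, h2, h3, h4⟩ := ih
    have hs : f^[k + 1] = f ∘ f^[k] := Function.iterate_succ' f k
    refine ⟨?_, ?_, ?_, ?_⟩
    · rw [hs]; exact H.cd.comp h1
    · intro z hz; rw [hs]; exact hne _ (h2 z hz)
    · intro c z
      rw [hs]
      simp only [Function.comp]
      rw [h3, H.hom, ← pow_mul, pow_succ]
    · intro z v hz
      rw [hs]
      have hd1 : DifferentiableAt ℂ (f^[k]) z := (h1.differentiable (by norm_num)).differentiableAt
      have hd2 : DifferentiableAt ℂ f (f^[k] z) :=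
        (H.cd.differentiable (by norm_num)).differentiableAt
      rw [fderiv_comp z hd2 hd1]
      have h5 := H.ex (f^[k] z) (fderiv ℂ (f^[k]) z v) (h2 z hz)
      have h6 := h4 z v hz
      have h7 : (0 : ℝ) ≤ θ := by linarith [H.hθ]
      calc q ((f ∘ f^[k]) z) (((fderiv ℂ f (f^[k] z)).comp (fderiv ℂ (f^[k]) z)) v)
          = q (f (f^[k] z)) (fderiv ℂ f (f^[k] z) (fderiv ℂ (f^[k]) z v)) := rfl
        _ ≤ θ * q (f^[k] z) (fderiv ℂ (f^[k]) z v) := h5
        _ ≤ θ * (θ ^ k * q z v) := mul_le_mul_of_nonneg_left h6 h7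
        _ = θ ^ (k + 1) * q z v := by ring

end Pool.CBE
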